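import Pool.Agent.Helper17.SO.Stmts

set_option autoImplicit false

open Finset

namespace Pool.Agent.Helper17.SO

/-- the number of classes modulo the product -/
theorem crtc_classes (D : Finset ℕ) (Ω : (l : ℕ) → Finset (ZMod l)) (hD : ∀ l ∈ D, l.Prime)
    (d : ℕ) (hd : d = ∏ i : D, (i : ℕ)) [NeZero d] :
    ((Finset.univ : Finset (ZMod d)).filter
      (fun x => ∀ i : D, (ZMod.cast x : ZMod (i : ℕ)) ∈ Ω (i : ℕ))).card = ∏ l ∈ D, (Ω l).card := by
  classical
  subst hd
  have hco : Pairwise (Function.onFun Nat.Coprime (fun i : D => (i : ℕ))) := by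
    intro i j hij
    apply (Nat.coprime_primes (hD i i.2) (hD j j.2)).mpr
    intro h
    exact hij (Subtype.ext h)
  let e := ZMod.prodEquivPi (fun i : D => (i : ℕ)) hco
  haveI : ∀ i : D, NeZero (i : ℕ) := fun i => ⟨(hD i i.2).ne_zero⟩
  rw [← Finset.prod_coe_sort D (fun l => (Ω l).card)]
  rw [← Fintype.card_piFinset (fun i : D => Ω (i : ℕ))]
  apply Finset.card_bij (fun x _ => e x)
  · intro x hx
    rw [Finset.mem_filter] at hx
    rw [Fintype.mem_piFinset]
    intro i
    have h := hx.2 i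
    have h2 : e x i = (ZMod.cast x : ZMod (i : ℕ)) := by
      simp only [e]
      rw [ZMod.prodEquivPi_apply, ZMod.castHom_apply]
    rw [h2]
    exact h
  · intro x _ y _ hxy
    exact e.injective hxy
  · intro y hy
    refine ⟨e.symm y, ?_, RingEquiv.apply_symm_apply e y⟩
    rw [Finset.mem_filter]
    refine ⟨Finset.mem_univ _, ?_⟩
    intro i
    have h2 : e (e.symm y) i = (ZMod.cast (e.symm y) : ZMod (i : ℕ)) := by
      simp only [e]
      rw [ZMod.prodEquivPi_apply, ZMod.castHom_apply]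
    rw [← h2, RingEquiv.apply_symm_apply]
    exact (Fintype.mem_piFinset.mp hy) i

/-- one class -/
theorem crtc_one (N d : ℕ) (x : ZMod d) [NeZero d] :
    |((((range N).filter (fun t : ℕ => (t : ZMod d) = x)).card : ℕ) : ℝ) - (N : ℝ) / d| ≤ 1 := by
  have hd : 0 < d := Nat.pos_of_ne_zero (NeZero.ne d)
  have e : (range N).filter (fun t : ℕ => (t : ZMod d) = x) =
      (range N).filter (fun t : ℕ => t ≡ x.val [MOD d]) := by
    apply Finset.filter_congr
    intro t _
    rw [← ZMod.natCast_eq_natCast_iff, ZMod.natCast_zmod_val]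
  rw [e, ← Nat.count_eq_card_filter_range, Nat.count_modEq_card _ hd]
  have h1 : (N : ℝ) = d * ((N / d : ℕ) : ℝ) + ((N % d : ℕ) : ℝ) := by
    exact_mod_cast (Nat.div_add_mod N d).symm
  have hdR : (0 : ℝ) < d := by exact_mod_cast hd
  have h2 : ((N % d : ℕ) : ℝ) < d := by exact_mod_cast Nat.mod_lt N hd
  have h3 : (0 : ℝ) ≤ ((N % d : ℕ) : ℝ) := by positivity
  have h4 : (N : ℝ) / d = ((N / d : ℕ) : ℝ) + ((N % d : ℕ) : ℝ) / d := by
    rw [div_eq_iff hdR.ne']
    rw [add_mul, div_mul_cancel₀ _ hdR.ne']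
    linarith
  have h5 : ((N % d : ℕ) : ℝ) / d < 1 := by
    rw [div_lt_one hdR]
    exact h2
  have h6 : 0 ≤ ((N % d : ℕ) : ℝ) / d := by positivity
  rw [h4, abs_le]
  push_cast
  split_ifs
  · constructor <;> linarith
  · constructor <;> linarith

theorem st_CRTC : ST_CRTC := by
  classical
  intro N D Ω hD S hS
  obtain ⟨d, hd⟩ : ∃ d : ℕ, d = ∏ i : D, (i : ℕ) := ⟨_, rfl⟩
  have hdD : d = ∏ l ∈ D, l := by
    rw [hd]
    exact Finset.prod_coe_sort D (fun l => l)
  haveI : NeZero d := ⟨by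
    rw [hdD]
    exact Finset.prod_ne_zero_iff.mpr fun l hl => (hD l hl).ne_zero⟩
  have hcard := crtc_classes D Ω hD d hd
  obtain ⟨G, hG⟩ : ∃ G : Finset (ZMod d), G = (Finset.univ : Finset (ZMod d)).filter
      (fun x => ∀ i : D, (ZMod.cast x : ZMod (i : ℕ)) ∈ Ω (i : ℕ)) := ⟨_, rfl⟩
  rw [← hG] at hcard
  have hcast : ∀ (l : ℕ) (hl : l ∈ D) (t : ℕ), (ZMod.cast (t : ZMod d) : ZMod l) = (t : ZMod l) := by
    intro l hl t
    have hdvd : l ∣ d := by
      rw [hdD]
      exact Finset.dvd_prod_of_mem (fun l => l) hl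
    exact ZMod.cast_natCast hdvd t
  have hSe : S = G.biUnion (fun x => (range N).filter (fun t : ℕ => (t : ZMod d) = x)) := by
    ext t
    rw [hS, Finset.mem_biUnion]
    constructor
    · rintro ⟨h1, h2⟩
      refine ⟨(t : ZMod d), ?_, ?_⟩
      · rw [hG, Finset.mem_filter]
        refine ⟨Finset.mem_univ _, ?_⟩
        intro i
        rw [hcast i i.2 t]
        exact h2 i i.2
      · rw [Finset.mem_filter, Finset.mem_range]
        exact ⟨h1, rfl⟩
    · rintro ⟨x, hx, ht⟩
      rw [Finset.mem_filter, Finset.mem_range] at ht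
      refine ⟨ht.1, ?_⟩
      intro l hl
      rw [hG, Finset.mem_filter] at hx
      have := hx.2 ⟨l, hl⟩
      rw [← ht.2] at this
      rw [hcast l hl t] at this
      exact this
  have hcS : S.card = ∑ x ∈ G, ((range N).filter (fun t : ℕ => (t : ZMod d) = x)).card := by
    rw [hSe]
    apply Finset.card_biUnion
    intro x _ y _ hxy
    rw [Function.onFun, Finset.disjoint_left]
    intro t h1 h2
    rw [Finset.mem_filter] at h1 h2
    exact hxy (h1.2.symm.trans h2.2)
  have hprod : (N : ℝ) * ∏ l ∈ D, (((Ω l).card : ℝ) / l) = ∑ _x ∈ G, (N : ℝ) / d := by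
    rw [Finset.sum_const, hcard, Finset.prod_div_distrib, nsmul_eq_mul, hdD]
    push_cast
    ring
  rw [hprod, hcS]
  push_cast
  rw [← Finset.sum_sub_distrib]
  refine (Finset.abs_sum_le_sum_abs _ _).trans ?_
  have h7 : ∏ l ∈ D, ((Ω l).card : ℝ) = ∑ _x ∈ G, (1 : ℝ) := by
    rw [Finset.sum_const, hcard, nsmul_eq_mul]
    push_cast
    ring
  rw [h7]
  exact Finset.sum_le_sum fun x _ => crtc_one N d x

end Pool.Agent.Helper17.SO
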