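import Pool.Agent.Helper17.SO.Stmts

set_option autoImplicit false

open Finset

namespace Pool.Agent.Helper17.SO

/-- the product of `n` and `4 n - 1` is a square only if `n` is -/
theorem denc_sq (lam : ℕ) (h : IsSquare ((lam : ℤ) * (4 * (lam : ℤ) - 1))) (h1 : 1 ≤ lam) :
    IsSquare lam := by
  obtain ⟨x, hx⟩ := h
  have e : lam * (4 * lam - 1) = x.natAbs * x.natAbs := by
    have h2 : ((4 * lam - 1 : ℕ) : ℤ) = 4 * (lam : ℤ) - 1 := by
      rw [Nat.cast_sub (by omega)]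
      push_cast
      ring
    zify
    rw [h2, hx]
    simp
  have hc : Nat.gcd lam (4 * lam - 1) = 1 := by
    have h3 : Nat.gcd lam (4 * lam - 1) ∣ 4 * lam := Dvd.dvd.mul_left (Nat.gcd_dvd_left _ _) 4
    have h4 := Nat.gcd_dvd_right lam (4 * lam - 1)
    have h5 := (Nat.dvd_sub h3 h4)
    have h6 : 4 * lam - (4 * lam - 1) = 1 := by omega
    rw [h6] at h5
    exact Nat.dvd_one.mp h5
  have h7 : lam * (4 * lam - 1) = x.natAbs ^ 2 := by rw [e, sq]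
  obtain ⟨d, hd⟩ := exists_eq_pow_of_mul_eq_pow (α := ℕ) (Nat.isUnit_iff.mpr hc) h7
  exact ⟨d, by rw [hd, sq]⟩

theorem denc_neg (a : ℤ) (h : a < 0) : ¬ IsSquare a := by
  rintro ⟨x, hx⟩
  nlinarith [mul_self_nonneg x]

theorem denc_three (a : ℤ) (h : a % 4 = 3) : ¬ IsSquare a := by
  rintro ⟨x, hx⟩
  rw [hx, Int.mul_emod] at h
  have h1 : x % 4 = 0 ∨ x % 4 = 1 ∨ x % 4 = 2 ∨ x % 4 = 3 := by omega
  rcases h1 with h1 | h1 | h1 | h1 <;> rw [h1] at h <;> norm_num at h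

/-- the indicator dominates the product of the symbols -/
theorem denc_point (lam p : ℕ) (hp : p.Prime) (hd : ¬ p ∣ 2 * lam * (4 * lam - 1)) (h1 : 1 ≤ lam) :
    (1 + (jacobiSym (-1) p : ℝ)) * (1 + (jacobiSym (1 - 4 * (lam : ℤ)) p : ℝ)) *
      (1 - (jacobiSym (lam : ℤ) p : ℝ)) ≤
    8 * (if p % 4 = 1 ∧ jacobiSym (1 - 4 * (lam : ℤ)) p = 1 ∧ jacobiSym (lam : ℤ) p = -1
      then (1 : ℝ) else 0) := by
  have hp2 : p ≠ 2 := by
    rintro rfl
    exact hd ⟨lam * (4 * lam - 1), by ring⟩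
  have hodd := hp.odd_of_ne_two hp2
  have hA : p % 4 = 1 ∨ jacobiSym (-1) p = -1 := by
    rcases Nat.odd_mod_four_iff.mp (Nat.odd_iff.mp hodd) with h | h
    · exact Or.inl h
    · right
      rw [jacobiSym.at_neg_one hodd]
      exact ZMod.χ₄_nat_three_mod_four h
  have hcop : ∀ a : ℤ, ¬ (p : ℤ) ∣ a → jacobiSym a p = 1 ∨ jacobiSym a p = -1 := by
    intro a ha
    apply jacobiSym.eq_one_or_neg_one
    have h3 : Nat.Coprime p a.natAbs := by
      rw [hp.coprime_iff_not_dvd]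
      intro h
      exact ha (Int.natCast_dvd.mpr h)
    rw [Int.gcd_comm]
    simpa [Int.gcd] using h3
  have hB := hcop (1 - 4 * (lam : ℤ)) (by
    intro h
    have h4 : (p : ℤ) ∣ ((4 * lam - 1 : ℕ) : ℤ) := by
      have h2 : ((4 * lam - 1 : ℕ) : ℤ) = -(1 - 4 * (lam : ℤ)) := by
        rw [Nat.cast_sub (by omega)]
        push_cast
        ring
      rw [h2]
      exact (dvd_neg).mpr h
    exact hd (Dvd.dvd.mul_left (Int.natCast_dvd_natCast.mp h4) _))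
  have hL := hcop (lam : ℤ) (by
    intro h
    have h4 := Int.natCast_dvd_natCast.mp h
    exact hd (Dvd.dvd.mul_right (Dvd.dvd.mul_left h4 2) _))
  rcases hA with hA | hA
  · have hA' : jacobiSym (-1) p = 1 := by
      rw [jacobiSym.at_neg_one hodd]
      exact ZMod.χ₄_nat_one_mod_four hA
    rcases hB with hB | hB <;> rcases hL with hL | hL <;> simp [hA', hA, hB, hL] <;> norm_num
  · rw [hA]
    push_cast
    have : (0 : ℝ) ≤ (if p % 4 = 1 ∧ jacobiSym (1 - 4 * (lam : ℤ)) p = 1 ∧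
        jacobiSym (lam : ℤ) p = -1 then (1 : ℝ) else 0) := by
      split_ifs <;> norm_num
    linarith

theorem denc_abs (a : ℤ) (p : ℕ) : -1 ≤ (jacobiSym a p : ℝ) ∧ (jacobiSym a p : ℝ) ≤ 1 := by
  rcases jacobiSym.trichotomy a p with h | h | h <;> rw [h] <;> norm_num

theorem denc_point2 (lam p : ℕ) (hp : p.Prime) (h1 : 1 ≤ lam) :
    (1 + (jacobiSym (-1) p : ℝ)) * (1 + (jacobiSym (1 - 4 * (lam : ℤ)) p : ℝ)) *
      (1 - (jacobiSym (lam : ℤ) p : ℝ)) ≤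
    8 * (if p % 4 = 1 ∧ jacobiSym (1 - 4 * (lam : ℤ)) p = 1 ∧ jacobiSym (lam : ℤ) p = -1
      then (1 : ℝ) else 0) + 8 * (if p ∣ 2 * lam * (4 * lam - 1) then (1 : ℝ) else 0) := by
  by_cases hd : p ∣ 2 * lam * (4 * lam - 1)
  · rw [if_pos hd]
    have h0 : (0 : ℝ) ≤ (if p % 4 = 1 ∧ jacobiSym (1 - 4 * (lam : ℤ)) p = 1 ∧
        jacobiSym (lam : ℤ) p = -1 then (1 : ℝ) else 0) := by
      split_ifs <;> norm_num
    obtain ⟨a1, a2⟩ := denc_abs (-1) p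
    obtain ⟨b1, b2⟩ := denc_abs (1 - 4 * (lam : ℤ)) p
    obtain ⟨c1, c2⟩ := denc_abs (lam : ℤ) p
    have h3 : (1 + (jacobiSym (-1) p : ℝ)) * (1 + (jacobiSym (1 - 4 * (lam : ℤ)) p : ℝ)) ≤ 2 * 2 :=
      mul_le_mul (by linarith) (by linarith) (by linarith) (by norm_num)
    have h4 : (1 + (jacobiSym (-1) p : ℝ)) * (1 + (jacobiSym (1 - 4 * (lam : ℤ)) p : ℝ)) *
      (1 - (jacobiSym (lam : ℤ) p : ℝ)) ≤ (2 * 2) * 2 :=
      mul_le_mul h3 (by linarith) (by linarith) (by norm_num)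
    linarith
  · rw [if_neg hd]
    have := denc_point lam p hp hd h1
    linarith

theorem st_DENC (hM : ST_MER) (hL : ST_LEG) : ST_DENC := by
  intro lam h1 hns
  have hlamZ : (1 : ℤ) ≤ lam := by exact_mod_cast h1
  obtain ⟨C0, hC0, H0⟩ := hM
  obtain ⟨C1, hC1, H1⟩ := hL (-1) (denc_neg _ (by norm_num))
  obtain ⟨C2, hC2, H2⟩ := hL (1 - 4 * (lam : ℤ)) (denc_neg _ (by linarith))
  obtain ⟨C3, hC3, H3⟩ := hL (lam : ℤ) (by
    rintro ⟨x, hx⟩
    apply hns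
    refine ⟨x.natAbs, ?_⟩
    zify
    rw [hx]
    simp)
  obtain ⟨C4, hC4, H4⟩ := hL (-1 * (1 - 4 * (lam : ℤ))) (denc_three _ (by omega))
  obtain ⟨C5, hC5, H5⟩ := hL (-1 * (lam : ℤ)) (denc_neg _ (by linarith))
  obtain ⟨C6, hC6, H6⟩ := hL ((1 - 4 * (lam : ℤ)) * (lam : ℤ)) (denc_neg _ (by nlinarith))
  obtain ⟨C7, hC7, H7⟩ := hL (-1 * ((1 - 4 * (lam : ℤ)) * (lam : ℤ))) (by
    intro h
    apply hns
    apply denc_sq lam _ h1
    have e : (lam : ℤ) * (4 * (lam : ℤ) - 1) = -1 * ((1 - 4 * (lam : ℤ)) * (lam : ℤ)) := by ring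
    rw [e]
    exact h)
  refine ⟨C0 + C1 + C2 + C3 + C4 + C5 + C6 + C7 +
    ((2 * lam * (4 * lam - 1)).primeFactors.card : ℝ), by positivity, ?_⟩
  intro u w hu huw
  have K0 := (abs_le.mp (H0 u w hu huw)).1
  have K1 := (abs_le.mp (H1 u w hu huw)).1
  have K2 := (abs_le.mp (H2 u w hu huw)).1
  have K3 := (abs_le.mp (H3 u w hu huw)).2
  have K4 := (abs_le.mp (H4 u w hu huw)).1
  have K5 := (abs_le.mp (H5 u w hu huw)).2
  have K6 := (abs_le.mp (H6 u w hu huw)).2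
  have K7 := (abs_le.mp (H7 u w hu huw)).2
  have E : ∑ p ∈ PP u w, ((1 + (jacobiSym (-1) p : ℝ)) *
      (1 + (jacobiSym (1 - 4 * (lam : ℤ)) p : ℝ)) * (1 - (jacobiSym (lam : ℤ) p : ℝ))) / p =
      ∑ p ∈ PP u w, 1 / (p : ℝ) + ∑ p ∈ PP u w, (jacobiSym (-1) p : ℝ) / p +
      ∑ p ∈ PP u w, (jacobiSym (1 - 4 * (lam : ℤ)) p : ℝ) / p -
      ∑ p ∈ PP u w, (jacobiSym (lam : ℤ) p : ℝ) / p +
      ∑ p ∈ PP u w, (jacobiSym (-1 * (1 - 4 * (lam : ℤ))) p : ℝ) / p -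
      ∑ p ∈ PP u w, (jacobiSym (-1 * (lam : ℤ)) p : ℝ) / p -
      ∑ p ∈ PP u w, (jacobiSym ((1 - 4 * (lam : ℤ)) * (lam : ℤ)) p : ℝ) / p -
      ∑ p ∈ PP u w, (jacobiSym (-1 * ((1 - 4 * (lam : ℤ)) * (lam : ℤ))) p : ℝ) / p := by
    simp only [← Finset.sum_add_distrib, ← Finset.sum_sub_distrib]
    apply Finset.sum_congr rfl
    intro p _
    simp only [jacobiSym.mul_left]
    push_cast
    ring
  have U : ∑ p ∈ PP u w, ((1 + (jacobiSym (-1) p : ℝ)) *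
      (1 + (jacobiSym (1 - 4 * (lam : ℤ)) p : ℝ)) * (1 - (jacobiSym (lam : ℤ) p : ℝ))) / p ≤
      ∑ p ∈ PP u w, (8 * ((if p % 4 = 1 ∧ jacobiSym (1 - 4 * (lam : ℤ)) p = 1 ∧
        jacobiSym (lam : ℤ) p = -1 then 1 / (p : ℝ) else 0)) +
        8 * (if p ∣ 2 * lam * (4 * lam - 1) then (1 : ℝ) else 0)) := by
    apply Finset.sum_le_sum
    intro p hp
    have hpp : p.Prime := (Finset.mem_filter.mp hp).2
    have hp1 : (1 : ℝ) ≤ p := by exact_mod_cast hpp.one_lt.le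
    have h := denc_point2 lam p hpp h1
    rw [div_le_iff₀ (by linarith)]
    refine h.trans ?_
    rw [add_mul]
    apply add_le_add
    · split_ifs with hc
      · field_simp
        exact le_refl _
      · simp
    · split_ifs with hc
      · linarith
      · simp
  have V : ∑ p ∈ PP u w, (if p ∣ 2 * lam * (4 * lam - 1) then (1 : ℝ) else 0) ≤
      ((2 * lam * (4 * lam - 1)).primeFactors.card : ℝ) := by
    rw [← Finset.sum_filter, Finset.sum_const, nsmul_eq_mul, mul_one]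
    have : ((PP u w).filter (fun p => p ∣ 2 * lam * (4 * lam - 1))).card ≤
        (2 * lam * (4 * lam - 1)).primeFactors.card := by
      apply Finset.card_le_card
      intro p hp
      rw [Finset.mem_filter] at hp
      rw [Nat.mem_primeFactors]
      refine ⟨(Finset.mem_filter.mp hp.1).2, hp.2, ?_⟩
      have : 1 ≤ 4 * lam - 1 := by omega
      positivity
    exact_mod_cast this
  rw [Finset.sum_add_distrib, ← Finset.mul_sum, ← Finset.mul_sum, ← Finset.sum_filter] at U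
  rw [E] at U
  linarith

end Pool.Agent.Helper17.SO
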