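import Pool.Agent.Helper17.SO.Stmts

set_option autoImplicit false

namespace Pool.Agent.Helper17.SO

/-- a natural number which is `1` modulo `M`, and a prescribed class modulo an odd prime -/
theorem nsq_crt (M r c : ℕ) (hM : 1 ≤ M) (hr : 1 ≤ r) (h : Nat.Coprime M r) :
    ∃ b : ℕ, b % M = 1 % M ∧ b % r = c % r ∧ 1 ≤ b := by
  obtain ⟨b, hb1, hb2⟩ := Nat.chineseRemainder h 1 c
  refine ⟨b + M * r, ?_, ?_, ?_⟩
  · rw [Nat.add_mul_mod_self_left]
    exact hb1
  · rw [Nat.add_mul_mod_self_right]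
    exact hb2
  · have : 1 ≤ M * r := Nat.mul_pos hM hr
    omega

theorem nsq_nonres (r : ℕ) (hr : r.Prime) (h2 : r ≠ 2) :
    ∃ c : ℕ, jacobiSym (c : ℤ) r = -1 := by
  haveI : Fact r.Prime := ⟨hr⟩
  obtain ⟨x, hx⟩ := FiniteField.exists_nonsquare (F := ZMod r) (by rwa [ZMod.ringChar_zmod_n])
  refine ⟨x.val, ?_⟩
  rw [ZMod.nonsquare_iff_jacobiSym_eq_neg_one]
  rw [Int.cast_natCast, ZMod.natCast_zmod_val]
  exact hx

theorem nsq_one_mod (s : ℤ) (b : ℕ) (hb : Odd b) (h : b % (4 * s.natAbs) = 1 % (4 * s.natAbs))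
    (hs : s ≠ 0) : jacobiSym s b = 1 := by
  rw [jacobiSym.mod_right s hb, h, Nat.mod_eq_of_lt]
  · exact jacobiSym.one_right s
  · have := Int.natAbs_pos.mpr hs
    omega

theorem nsq_mod_of_dvd (b c M d : ℕ) (h : b % M = c % M) (hd : d ∣ M) : b % d = c % d := by
  have : b ≡ c [MOD M] := h
  exact this.of_dvd hd

/-- the first case -/
theorem nsq_A (ε : ℤ) (hε : ε = 1 ∨ ε = -1) (r s1 t : ℕ) (hr : r.Prime) (h2 : r ≠ 2)
    (hs1 : s1 ≠ 0) (hrs : ¬ r ∣ s1) (ht : t ≠ 0) :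
    ∃ b : ℕ, Odd b ∧ jacobiSym (ε * ((t ^ 2 * (r * s1) : ℕ) : ℤ)) b = -1 := by
  obtain ⟨k, t', ht', hk⟩ := Nat.exists_eq_pow_mul_and_not_dvd ht r hr.ne_one
  obtain ⟨c, hc⟩ := nsq_nonres r hr h2
  have ht0 : t' ≠ 0 := by
    rintro rfl
    exact ht' (dvd_zero _)
  have hcop : Nat.Coprime (8 * s1 * t') r := by
    rw [Nat.coprime_comm, hr.coprime_iff_not_dvd]
    intro h
    rcases (hr.dvd_mul).mp h with h | h
    · rcases (hr.dvd_mul).mp h with h | h
      · have : r ∣ 2 ^ 3 := by simpa using h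
        have := hr.dvd_of_dvd_pow this
        exact h2 ((Nat.prime_dvd_prime_iff_eq hr Nat.prime_two).mp this)
      · exact hrs h
    · exact ht' h
  have hM : 1 ≤ 8 * s1 * t' := Nat.pos_of_ne_zero (by simp [hs1, ht0])
  obtain ⟨b, hb1, hb2, hb3⟩ := nsq_crt (8 * s1 * t') r c hM hr.one_lt.le hcop
  have hb8 : b % 8 = 1 := by
    have := nsq_mod_of_dvd b 1 _ 8 hb1 ⟨s1 * t', by ring⟩
    simpa using this
  have hodd : Odd b := by
    rw [Nat.odd_iff]
    omega
  have h4 : b % 4 = 1 := by omega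
  refine ⟨b, hodd, ?_⟩
  have e1 : ε * ((t ^ 2 * (r * s1) : ℕ) : ℤ) = (ε * (s1 : ℤ)) * ((r : ℤ) * (t : ℤ) ^ 2) := by
    push_cast
    ring
  have hrb : jacobiSym (r : ℤ) b = -1 := by
    rw [jacobiSym.quadratic_reciprocity_one_mod_four' (hr.odd_of_ne_two h2) h4]
    rw [jacobiSym.mod_left, ← Int.natCast_mod, hb2, Int.natCast_mod, ← jacobiSym.mod_left]
    exact hc
  have hs : jacobiSym (ε * (s1 : ℤ)) b = 1 := by
    have hne : ε * (s1 : ℤ) ≠ 0 := by
      rcases hε with h | h <;> rw [h] <;> simp [hs1]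
    apply nsq_one_mod _ _ hodd _ hne
    have hab : (ε * (s1 : ℤ)).natAbs = s1 := by
      rcases hε with h | h <;> rw [h] <;> simp
    rw [hab]
    exact nsq_mod_of_dvd b 1 _ _ hb1 ⟨2 * t', by ring⟩
  have hcopr : Nat.Coprime b r := by
    rw [Nat.coprime_comm, hr.coprime_iff_not_dvd]
    intro h
    have : c % r = 0 := by
      rw [← hb2]
      exact Nat.mod_eq_zero_of_dvd h
    have h3 : jacobiSym (c : ℤ) r = 0 := by
      rw [jacobiSym.mod_left, ← Int.natCast_mod, this]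
      simpa using jacobiSym.zero_left hr.one_lt
    rw [h3] at hc
    omega
  have hcopt : Nat.Coprime b t := by
    rw [hk]
    apply Nat.Coprime.mul_right
    · exact Nat.Coprime.pow_right _ hcopr
    · have h1 : b % t' = 1 % t' := nsq_mod_of_dvd b 1 _ _ hb1 ⟨8 * s1, by ring⟩
      have h2 : Nat.gcd b t' = Nat.gcd 1 t' := Nat.ModEq.gcd_eq h1
      rw [Nat.Coprime, h2, Nat.gcd_one_left]
  have htb : jacobiSym ((t : ℤ) ^ 2) b = 1 := by
    apply jacobiSym.sq_one'
    rw [Int.gcd_natCast_natCast]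
    exact hcopt.symm
  rw [e1, jacobiSym.mul_left, hs, jacobiSym.mul_left, hrb, htb]
  norm_num

/-- the second case -/
theorem nsq_B (s : ℤ) (hs : s = -1 ∨ s = 2 ∨ s = -2) (t : ℕ) (ht : t ≠ 0) :
    ∃ b : ℕ, Odd b ∧ jacobiSym (s * ((t ^ 2 : ℕ) : ℤ)) b = -1 := by
  obtain ⟨k, t', ht', hk⟩ := Nat.exists_eq_pow_mul_and_not_dvd ht 2 (by norm_num)
  have ht0 : t' ≠ 0 := by
    rintro rfl
    exact ht' (dvd_zero _)
  have hcop : Nat.Coprime t' 8 := by
    have : Nat.Coprime t' 2 := by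
      rw [Nat.coprime_comm, Nat.prime_two.coprime_iff_not_dvd]
      exact ht'
    exact Nat.Coprime.pow_right 3 this
  obtain ⟨c, hc1, hc2⟩ : ∃ c : ℕ, (c = 3 ∨ c = 5) ∧ ∀ b : ℕ, b % 8 = c → jacobiSym s b = -1 := by
    rcases hs with h | h | h
    · refine ⟨3, Or.inl rfl, ?_⟩
      intro b hb
      have hodd : Odd b := by
        rw [Nat.odd_iff]
        omega
      rw [h, jacobiSym.mod_right (-1) hodd]
      have : b % (4 * (-1 : ℤ).natAbs) = 3 := by
        simp
        omega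
      rw [this]
      norm_num
    · refine ⟨3, Or.inl rfl, ?_⟩
      intro b hb
      have hodd : Odd b := by
        rw [Nat.odd_iff]
        omega
      rw [h, jacobiSym.mod_right 2 hodd]
      have : b % (4 * (2 : ℤ).natAbs) = 3 := by
        simpa using hb
      rw [this]
      norm_num
    · refine ⟨5, Or.inr rfl, ?_⟩
      intro b hb
      have hodd : Odd b := by
        rw [Nat.odd_iff]
        omega
      rw [h, jacobiSym.mod_right (-2) hodd]
      have : b % (4 * (-2 : ℤ).natAbs) = 5 := by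
        simpa using hb
      rw [this]
      norm_num
  obtain ⟨b, hb1, hb2, hb3⟩ := nsq_crt t' 8 c (by omega) (by norm_num) hcop
  have hb8 : b % 8 = c := by
    rcases hc1 with h | h <;> subst h <;> simpa using hb2
  have hodd : Odd b := by
    rw [Nat.odd_iff]
    omega
  refine ⟨b, hodd, ?_⟩
  have hcopt : Nat.Coprime b t := by
    rw [hk]
    apply Nat.Coprime.mul_right
    · apply Nat.Coprime.pow_right
      rw [Nat.coprime_two_right]
      exact hodd
    · have h2 : Nat.gcd b t' = Nat.gcd 1 t' := Nat.ModEq.gcd_eq hb1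
      rw [Nat.Coprime, h2, Nat.gcd_one_left]
  have htb : jacobiSym ((t : ℤ) ^ 2) b = 1 := by
    apply jacobiSym.sq_one'
    rw [Int.gcd_natCast_natCast]
    exact hcopt.symm
  have e1 : s * ((t ^ 2 : ℕ) : ℤ) = s * (t : ℤ) ^ 2 := by push_cast; ring
  rw [e1, jacobiSym.mul_left, hc2 b hb8, htb]
  norm_num

theorem st_NSQ : ST_NSQ := by
  intro a ha
  have ha0 : a ≠ 0 := by
    rintro rfl
    exact ha ⟨0, by simp⟩
  obtain ⟨s0, t, hst, hsq⟩ := Nat.sq_mul_squarefree a.natAbs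
  obtain ⟨ε, hε, haε⟩ : ∃ ε : ℤ, (ε = 1 ∨ ε = -1) ∧ a = ε * (a.natAbs : ℤ) := by
    rcases Int.natAbs_eq a with h | h
    · exact ⟨1, Or.inl rfl, by omega⟩
    · exact ⟨-1, Or.inr rfl, by omega⟩
  have ht : t ≠ 0 := by
    rintro rfl
    have : a.natAbs = 0 := by rw [← hst]; simp
    exact ha0 (Int.natAbs_eq_zero.mp this)
  have hs0 : s0 ≠ 0 := hsq.ne_zero
  by_cases hodd : ∃ r : ℕ, r.Prime ∧ r ≠ 2 ∧ r ∣ s0
  · obtain ⟨r, hr, hr2, s1, hs1⟩ := hodd
    have hs10 : s1 ≠ 0 := by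
      rintro rfl
      exact hs0 (by rw [hs1]; simp)
    have hrs : ¬ r ∣ s1 := by
      intro h
      have : r * r ∣ s0 := by
        rw [hs1]
        exact Nat.mul_dvd_mul_left r h
      have := hsq r this
      exact hr.one_lt.ne' (Nat.isUnit_iff.mp this)
    obtain ⟨b, hb, hJ⟩ := nsq_A ε hε r s1 t hr hr2 hs10 hrs ht
    refine ⟨b, hb, ?_⟩
    rw [haε, ← hst, hs1]
    exact hJ
  · push Not at hodd
    have h12 : s0 = 1 ∨ s0 = 2 := by
      by_cases h1 : s0 = 1
      · exact Or.inl h1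
      · right
        obtain ⟨q, hq, hqs⟩ := Nat.exists_prime_and_dvd h1
        have hq2 : q = 2 := by
          by_contra h
          exact hodd q hq h hqs
        subst hq2
        obtain ⟨s1, hs1⟩ := hqs
        by_cases h2 : s1 = 1
        · rw [hs1, h2]
        · exfalso
          obtain ⟨q, hq, hqs⟩ := Nat.exists_prime_and_dvd h2
          have hq2 : q = 2 := by
            by_contra h
            exact hodd q hq h (by rw [hs1]; exact Dvd.dvd.mul_left hqs 2)
          subst hq2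
          have : 2 * 2 ∣ s0 := by
            rw [hs1]
            exact Nat.mul_dvd_mul_left 2 hqs
          have := hsq 2 this
          exact absurd (Nat.isUnit_iff.mp this) (by norm_num)
    have key : (ε * (s0 : ℤ) = -1 ∨ ε * (s0 : ℤ) = 2 ∨ ε * (s0 : ℤ) = -2) ∨ ε * (s0 : ℤ) = 1 := by
      rcases hε with h | h <;> rcases h12 with h' | h' <;> rw [h, h'] <;> norm_num
    have e2 : a = (ε * (s0 : ℤ)) * ((t ^ 2 : ℕ) : ℤ) := by
      rw [haε]
      conv_lhs => rw [← hst]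
      push_cast
      ring
    rcases key with key | key
    · obtain ⟨b, hb, hJ⟩ := nsq_B _ key t ht
      exact ⟨b, hb, by rw [e2]; exact hJ⟩
    · exfalso
      apply ha
      rw [e2, key]
      exact ⟨t, by push_cast; ring⟩

end Pool.Agent.Helper17.SO
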